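import Mathlib

/-!
# Composition of indestructible Blaschke products

If `B` and `C` are indestructible Blaschke products, then `B ∘ C` is an indestructible Blaschke
product. (Idea of the proof: helper658; this file: helper457.)
-/

set_option autoImplicit false

open Filter Topology

namespace Pool.Agent.Results.MP_4d1c53_an.CompositionIndestructible

/-- The factor `(|a| / a) (a - z) / (1 - conj a z)` with the zero `a ≠ 0`. -/
noncomputable def fac (a z : ℂ) : ℂ :=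
  ((‖a‖ : ℝ) : ℂ) / a * ((a - z) / (1 - (starRingEnd ℂ) a * z))

/-- `B` is a Blaschke product on the unit disc: `B z = e^(i θ) z^m ∏ fac (a i) z` for `|z| < 1`, with
a finite or countably infinite family `a i` of numbers in the unit disc without `0`,
`∑ (1 - |a i|) < ∞`, and `B` is not constant on the unit disc. -/
def IsBlaschke (B : ℂ → ℂ) : Prop :=
  (∃ (θ : ℝ) (m : ℕ) (ι : Type) (_ : Countable ι) (a : ι → ℂ), (∀ i, a i ≠ 0 ∧ ‖a i‖ < 1) ∧
    Summable (fun i => 1 - ‖a i‖) ∧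
    ∀ z : ℂ, ‖z‖ < 1 → ∃ p : ℂ, HasProd (fun i => fac (a i) z) p ∧
      B z = Complex.exp (θ * Complex.I) * z ^ m * p) ∧
  ¬ ∃ c : ℂ, ∀ z : ℂ, ‖z‖ < 1 → B z = c

/-- `B` is an indestructible Blaschke product: `B` and all functions `T ∘ B`, where
`T w = e^(i φ) (w - a) / (1 - conj a w)` is a conformal automorphism of the unit disc, are Blaschke
products. -/
def Indestructible (B : ℂ → ℂ) : Prop :=
  IsBlaschke B ∧ ∀ (φ : ℝ) (a : ℂ), ‖a‖ < 1 →
    IsBlaschke fun z => Complex.exp (φ * Complex.I) * ((B z - a) / (1 - (starRingEnd ℂ) a * B z))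

/-! ### The factors -/

/-- The factor with the zero `a`, also for `a = 0`. -/
noncomputable def gf (a z : ℂ) : ℂ := if a = 0 then z else fac a z

theorem den_pos {a z : ℂ} (ha : ‖a‖ < 1) (hz : ‖z‖ < 1) :
    0 < 1 - ‖z‖ ∧ 1 - ‖z‖ ≤ ‖1 - (starRingEnd ℂ) a * z‖ ∧ ‖1 - (starRingEnd ℂ) a * z‖ ≤ 2 := by
  have h1 : ‖(starRingEnd ℂ) a * z‖ ≤ ‖z‖ := by
    rw [norm_mul, RCLike.norm_conj]
    have := norm_nonneg z
    nlinarith
  refine ⟨by linarith, ?_, ?_⟩
  · have h2 := norm_sub_norm_le (1 : ℂ) ((starRingEnd ℂ) a * z)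
    rw [norm_one] at h2
    linarith
  · have h2 := norm_sub_le (1 : ℂ) ((starRingEnd ℂ) a * z)
    rw [norm_one] at h2
    linarith

theorem den_ne {a z : ℂ} (ha : ‖a‖ < 1) (hz : ‖z‖ < 1) : 1 - (starRingEnd ℂ) a * z ≠ 0 := by
  obtain ⟨h1, h2, -⟩ := den_pos ha hz
  rw [← norm_pos_iff]
  linarith

theorem one_sub_fac {a z : ℂ} (ha0 : a ≠ 0) (ha : ‖a‖ < 1) (hz : ‖z‖ < 1) :
    1 - fac a z = ((1 - ‖a‖ : ℝ) : ℂ) * (1 + ((‖a‖ : ℝ) : ℂ) / a * z) /
      (1 - (starRingEnd ℂ) a * z) := by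
  have hD := den_ne ha hz
  have h1 : (starRingEnd ℂ) a = ((‖a‖ : ℝ) : ℂ) ^ 2 / a := by
    rw [eq_div_iff ha0, mul_comm, Complex.mul_conj, Complex.normSq_eq_norm_sq]
    push_cast
    ring
  unfold fac
  rw [eq_div_iff hD, sub_mul, one_mul, mul_assoc, div_mul_cancel₀ _ hD]
  conv_lhs => rw [h1]
  push_cast
  field_simp
  ring

theorem norm_one_sub_gf {a z : ℂ} (ha : ‖a‖ < 1) (hz : ‖z‖ < 1) :
    ‖gf a z - 1‖ ≤ 2 / (1 - ‖z‖) * (1 - ‖a‖) := by
  obtain ⟨h1, h2, -⟩ := den_pos ha hz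
  rw [← norm_neg, neg_sub]
  unfold gf
  split_ifs with h
  · rw [h, norm_zero, sub_zero, mul_one, le_div_iff₀ h1]
    have h3 := norm_sub_le (1 : ℂ) z
    rw [norm_one] at h3
    have := norm_nonneg z
    have := norm_nonneg (1 - z)
    nlinarith
  · rw [one_sub_fac h ha hz, norm_div, norm_mul, Complex.norm_real, Real.norm_eq_abs,
      abs_of_pos (by linarith)]
    have h3 : ‖1 + ((‖a‖ : ℝ) : ℂ) / a * z‖ ≤ 2 := by
      refine (norm_add_le _ _).trans ?_
      rw [norm_one, norm_mul, norm_div, Complex.norm_real, norm_norm, div_self (norm_ne_zero_iff.2 h)]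
      linarith
    have h4 : 0 ≤ 1 - ‖a‖ := by linarith
    calc (1 - ‖a‖) * ‖1 + ((‖a‖ : ℝ) : ℂ) / a * z‖ / ‖1 - (starRingEnd ℂ) a * z‖
        ≤ (1 - ‖a‖) * 2 / (1 - ‖z‖) := by gcongr
      _ = _ := by ring

theorem norm_sq_id (a z : ℂ) :
    ‖1 - (starRingEnd ℂ) a * z‖ ^ 2 - ‖a - z‖ ^ 2 = (1 - ‖a‖ ^ 2) * (1 - ‖z‖ ^ 2) := by
  rw [Complex.sq_norm, Complex.sq_norm, Complex.sq_norm, Complex.sq_norm]
  simp only [Complex.normSq_apply, Complex.sub_re, Complex.sub_im, Complex.mul_re, Complex.mul_im,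
    Complex.conj_re, Complex.conj_im, Complex.one_re, Complex.one_im]
  ring

theorem norm_fac {a z : ℂ} (h : a ≠ 0) :
    ‖fac a z‖ = ‖a - z‖ / ‖1 - (starRingEnd ℂ) a * z‖ := by
  unfold fac
  rw [norm_mul, norm_div, Complex.norm_real, norm_norm, div_self (norm_ne_zero_iff.2 h), one_mul,
    norm_div]

theorem gf_low {a z : ℂ} (ha : ‖a‖ < 1) (hz : ‖z‖ < 1) :
    (1 - ‖z‖ ^ 2) / 8 * (1 - ‖a‖) ≤ 1 - ‖gf a z‖ := by
  obtain ⟨h1, h2, h3⟩ := den_pos ha hz
  have hz0 := norm_nonneg z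
  have ha0 := norm_nonneg a
  unfold gf
  split_ifs with h
  · rw [h, norm_zero]
    nlinarith
  · rw [norm_fac h]
    set D := ‖1 - (starRingEnd ℂ) a * z‖ with hD
    have hD0 : 0 < D := by linarith
    set t := ‖a - z‖ / D with ht
    have ht0 : 0 ≤ t := by positivity
    have h4 : 1 - t ^ 2 = (1 - ‖a‖ ^ 2) * (1 - ‖z‖ ^ 2) / D ^ 2 := by
      rw [← norm_sq_id a z, ← hD, ht, div_pow, eq_div_iff (by positivity), sub_mul, one_mul,
        div_mul_cancel₀ _ (by positivity)]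
    have h5 : (1 - ‖a‖) * (1 - ‖z‖ ^ 2) / 4 ≤ 1 - t ^ 2 := by
      rw [h4, div_le_div_iff₀ (by norm_num) (by positivity)]
      have h6 : D ^ 2 ≤ 4 := by nlinarith
      have h7 : 0 ≤ (1 - ‖a‖) * (1 - ‖z‖ ^ 2) := by
        apply mul_nonneg (by linarith)
        nlinarith
      have h8 : (1 - ‖a‖) * (1 - ‖z‖ ^ 2) ≤ (1 - ‖a‖ ^ 2) * (1 - ‖z‖ ^ 2) := by
        apply mul_le_mul_of_nonneg_right
        · nlinarith
        · nlinarith
      calc (1 - ‖a‖) * (1 - ‖z‖ ^ 2) * D ^ 2 ≤ (1 - ‖a‖) * (1 - ‖z‖ ^ 2) * 4 := by gcongr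
        _ ≤ _ := by linarith
    have h9 : 0 ≤ (1 - ‖a‖) * (1 - ‖z‖ ^ 2) := by
      apply mul_nonneg (by linarith)
      nlinarith
    have h10 : t ≤ 1 := by nlinarith
    nlinarith

theorem gf_lt {a z : ℂ} (ha : ‖a‖ < 1) (hz : ‖z‖ < 1) : ‖gf a z‖ < 1 := by
  have h := gf_low ha hz
  have hz0 := norm_nonneg z
  have h1 : 0 < (1 - ‖z‖ ^ 2) / 8 * (1 - ‖a‖) := by
    apply mul_pos
    · nlinarith
    · linarith
  linarith

theorem gf_zero_iff {a z : ℂ} (ha : ‖a‖ < 1) (hz : ‖z‖ < 1) : gf a z = 0 ↔ z = a := by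
  unfold gf
  split_ifs with h
  · rw [h]
  · unfold fac
    rw [mul_eq_zero, div_eq_zero_iff, div_eq_zero_iff, sub_eq_zero]
    constructor
    · rintro ((h1 | h1) | (h1 | h1))
      · rw [Complex.ofReal_eq_zero, norm_eq_zero] at h1
        exact absurd h1 h
      · exact absurd h1 h
      · exact h1.symm
      · exact absurd h1 (den_ne ha hz)
    · intro h1
      exact Or.inr (Or.inl h1.symm)

/-! ### Products -/

section prod

variable {ι : Type} {a : ι → ℂ} (ha : ∀ i, ‖a i‖ < 1) (hs : Summable fun i => 1 - ‖a i‖)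

include ha hs in
theorem summ {z : ℂ} (hz : ‖z‖ < 1) : Summable fun i => ‖gf (a i) z - 1‖ :=
  Summable.of_nonneg_of_le (fun _ => norm_nonneg _) (fun i => norm_one_sub_gf (ha i) hz)
    (hs.mul_left _)

include ha hs in
theorem mult {z : ℂ} (hz : ‖z‖ < 1) : Multipliable fun i => gf (a i) z := by
  have h := multipliable_one_add_of_summable (summ ha hs hz)
  simpa only [add_sub_cancel] using h

include ha hs in
theorem prod_zero {z : ℂ} (hz : ‖z‖ < 1) (h : ∏' i, gf (a i) z = 0) : ∃ i, z = a i := by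
  by_contra hcon
  push Not at hcon
  have h1 := tprod_one_add_ne_zero_of_summable (f := fun i => gf (a i) z - 1)
    (fun i => by
      rw [add_sub_cancel]
      exact fun h2 => hcon i ((gf_zero_iff (ha i) hz).1 h2)) (summ ha hs hz)
  simp only [add_sub_cancel] at h1
  exact h1 h

end prod

theorem le_prod {ι : Type} {x : ι → ℝ} {p : ℝ} (h0 : ∀ i, 0 ≤ x i) (h1 : ∀ i, x i ≤ 1)
    (h : HasProd x p) (S : Finset ι) : p ≤ ∏ i ∈ S, x i := by
  classical
  have h2 : Tendsto (fun s : Finset ι => ∏ i ∈ s, x i) atTop (𝓝 p) := h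
  refine le_of_tendsto h2 ?_
  filter_upwards [eventually_ge_atTop S] with s hs
  rw [← Finset.prod_sdiff hs]
  calc (∏ i ∈ s \ S, x i) * ∏ i ∈ S, x i ≤ 1 * ∏ i ∈ S, x i := by
        apply mul_le_mul_of_nonneg_right
        · exact Finset.prod_le_one (fun i _ => h0 i) (fun i _ => h1 i)
        · exact Finset.prod_nonneg fun i _ => h0 i
    _ = _ := one_mul _

theorem sum_le_log {ι : Type} {x : ι → ℝ} {d : ℝ} (hd : 0 < d) (h0 : ∀ i, 0 ≤ x i) (S : Finset ι)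
    (h : d ≤ ∏ i ∈ S, x i) : ∑ i ∈ S, (1 - x i) ≤ -Real.log d := by
  have h1 : ∏ i ∈ S, x i ≤ ∏ i ∈ S, Real.exp (x i - 1) :=
    Finset.prod_le_prod (fun i _ => h0 i) fun i _ => by
      have := Real.add_one_le_exp (x i - 1)
      linarith
  rw [← Real.exp_sum] at h1
  have h2 := Real.log_le_log hd (h.trans h1)
  rw [Real.log_exp] at h2
  have h3 : ∑ i ∈ S, (1 - x i) = -∑ i ∈ S, (x i - 1) := by
    rw [← Finset.sum_neg_distrib]
    exact Finset.sum_congr rfl fun i _ => by ring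
  linarith

/-- A representation as a product. -/
def Rp (F : ℂ → ℂ) : Prop :=
  ∃ (ω : ℂ) (ι : Type) (_ : Countable ι) (a : ι → ℂ), ‖ω‖ = 1 ∧ (∀ i, ‖a i‖ < 1) ∧
    Summable (fun i => 1 - ‖a i‖) ∧ ∀ z, ‖z‖ < 1 → F z = ω * ∏' i, gf (a i) z

theorem rp_of_bl {B : ℂ → ℂ} (h : IsBlaschke B) : Rp B := by
  obtain ⟨⟨θ, m, ι, hι, a, ha, hs, hB⟩, -⟩ := h
  refine ⟨Complex.exp (θ * Complex.I), Fin m ⊕ ι, inferInstance, Sum.elim (fun _ => 0) a,
    Complex.norm_exp_ofReal_mul_I θ, ?_, ?_, ?_⟩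
  · rintro (i | i)
    · simp
    · exact (ha i).2
  · apply Summable.sum
    · exact (hasSum_fintype _).summable
    · exact hs
  · intro z hz
    obtain ⟨p, hp, hp2⟩ := hB z hz
    rw [hp2, mul_assoc]
    congr 1
    have h1 : HasProd (fun i : Fin m ⊕ ι => gf (Sum.elim (fun _ => 0) a i) z) (z ^ m * p) := by
      apply HasProd.sum
      · have e : (fun i : Fin m ⊕ ι => gf (Sum.elim (fun _ => 0) a i) z) ∘ Sum.inl
            = fun _ : Fin m => z := by
          funext i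
          simp [gf]
        rw [e]
        have h2 := hasProd_fintype (fun _ : Fin m => z)
        simpa using h2
      · have e : (fun i : Fin m ⊕ ι => gf (Sum.elim (fun _ => 0) a i) z) ∘ Sum.inr
            = fun i => fac (a i) z := by
          funext i
          simp [gf, (ha i).1]
        rw [e]
        exact hp
    exact h1.tprod_eq.symm

theorem bl_of_rp {F : ℂ → ℂ} (h : Rp F) (hn : ¬ ∃ c : ℂ, ∀ z : ℂ, ‖z‖ < 1 → F z = c) :
    IsBlaschke F := by
  refine ⟨?_, hn⟩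
  obtain ⟨ω, ι, hι, a, hω, ha, hs, hF⟩ := h
  set Z : Set ι := {i | a i = 0} with hZ
  have hfin : Z.Finite := by
    have h1 := hs.tendsto_cofinite_zero.eventually (gt_mem_nhds zero_lt_one)
    refine (Filter.eventually_cofinite.1 h1).subset ?_
    intro i hi
    have hi' : a i = 0 := hi
    simp [hi']
  have := hfin.fintype
  refine ⟨ω.arg, Fintype.card Z, ↥Zᶜ, inferInstance, fun i => a i, ?_, ?_, ?_⟩
  · intro i
    exact ⟨i.2, ha i⟩
  · exact hs.subtype _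
  · intro z hz
    have h1 : Multipliable fun i : ↥Zᶜ => gf (a i) z :=
      mult (a := fun i : ↥Zᶜ => a i) (fun i => ha i) (hs.subtype _) hz
    have e1 : (fun i : ↥Zᶜ => gf (a i) z) = fun i : ↥Zᶜ => fac (a i) z := by
      funext i
      have hi : ¬ a i = 0 := i.2
      unfold gf
      rw [if_neg hi]
    have h2 : HasProd ((fun i => gf (a i) z) ∘ ((↑) : Z → ι)) (z ^ Fintype.card Z) := by
      have e2 : (fun i => gf (a i) z) ∘ ((↑) : Z → ι) = fun _ => z := by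
        funext i
        have hi : a i = 0 := i.2
        simp [gf, hi]
      rw [e2]
      have h3 := hasProd_fintype (fun _ : Z => z)
      simpa using h3
    have h3 : HasProd (fun i => gf (a i) z) (z ^ Fintype.card Z * ∏' i : ↥Zᶜ, gf (a i) z) :=
      h2.mul_compl h1.hasProd
    refine ⟨∏' i : ↥Zᶜ, gf (a i) z, ?_, ?_⟩
    · rw [← e1]
      exact h1.hasProd
    · rw [hF z hz, h3.tprod_eq, ← mul_assoc]
      congr 2
      have h4 := Complex.norm_mul_exp_arg_mul_I ω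
      rw [hω, Complex.ofReal_one, one_mul] at h4
      exact h4.symm

/-- Infinite products of Blaschke products. -/
theorem rp_prod {κ : Type} [Countable κ] (β : κ → ℂ → ℂ) (hβ : ∀ k, Rp (β k)) (F : ℂ → ℂ)
    (hF : ∀ z, ‖z‖ < 1 → HasProd (fun k => β k z) (F z)) (z₀ : ℂ) (hz₀ : ‖z₀‖ < 1)
    (hne : F z₀ ≠ 0) : Rp F := by
  choose ω ι hι a hω ha hs hb using hβ
  have hd : 0 < ‖F z₀‖ := norm_pos_iff.2 hne
  -- the products
  have hm : ∀ k z, ‖z‖ < 1 → HasProd (fun i => gf (a k i) z) (∏' i, gf (a k i) z) :=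
    fun k z hz => (mult (ha k) (hs k) hz).hasProd
  have hnb : ∀ k z, ‖z‖ < 1 → ‖β k z‖ = ‖∏' i, gf (a k i) z‖ := by
    intro k z hz
    rw [hb k z hz, norm_mul, hω, one_mul]
  have hle : ∀ k, ∀ S : Finset (ι k), ‖β k z₀‖ ≤ ∏ i ∈ S, ‖gf (a k i) z₀‖ := by
    intro k S
    rw [hnb k z₀ hz₀]
    exact le_prod (fun i => norm_nonneg _) (fun i => (gf_lt (ha k i) hz₀).le)
      (hm k z₀ hz₀).norm S
  have hb1 : ∀ k, ‖β k z₀‖ ≤ 1 := by
    intro k
    have := hle k ∅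
    simpa using this
  have hF1 : ∀ S : Finset κ, ‖F z₀‖ ≤ ∏ k ∈ S, ‖β k z₀‖ := fun S =>
    le_prod (fun k => norm_nonneg _) hb1 (hF z₀ hz₀).norm S
  have hbp : ∀ k, 0 < ‖β k z₀‖ := by
    intro k
    have := hF1 {k}
    rw [Finset.prod_singleton] at this
    exact hd.trans_le this
  set c : ℝ := (1 - ‖z₀‖ ^ 2) / 8 with hc
  have hc0 : 0 < c := by
    have := norm_nonneg z₀
    rw [hc]
    nlinarith
  have hsum : ∀ k, ∑' i, (1 - ‖a k i‖) ≤ c⁻¹ * -Real.log ‖β k z₀‖ := by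
    intro k
    apply (hs k).tsum_le_of_sum_le
    intro S
    have h1 := sum_le_log (hbp k) (fun i => norm_nonneg (gf (a k i) z₀)) S (hle k S)
    have h2 : c * ∑ i ∈ S, (1 - ‖a k i‖) ≤ ∑ i ∈ S, (1 - ‖gf (a k i) z₀‖) := by
      rw [Finset.mul_sum]
      exact Finset.sum_le_sum fun i _ => gf_low (ha k i) hz₀
    rw [← div_eq_inv_mul, le_div_iff₀ hc0, mul_comm]
    linarith
  have hsig : Summable fun p : Σ k, ι k => 1 - ‖a p.1 p.2‖ := by
    rw [summable_sigma_of_nonneg fun p => by linarith [ha p.1 p.2]]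
    refine ⟨fun k => hs k, ?_⟩
    refine summable_of_sum_le (c := c⁻¹ * -Real.log ‖F z₀‖)
      (fun k => tsum_nonneg fun i => by linarith [ha k i]) ?_
    intro S
    calc ∑ k ∈ S, ∑' i, (1 - ‖a k i‖) ≤ ∑ k ∈ S, c⁻¹ * -Real.log ‖β k z₀‖ :=
          Finset.sum_le_sum fun k _ => hsum k
      _ = c⁻¹ * -Real.log (∏ k ∈ S, ‖β k z₀‖) := by
          rw [← Finset.mul_sum, Finset.sum_neg_distrib, Real.log_prod fun k _ => (hbp k).ne']
      _ ≤ c⁻¹ * -Real.log ‖F z₀‖ := by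
          gcongr
          exact hF1 S
  have haJ : ∀ p : Σ k, ι k, ‖a p.1 p.2‖ < 1 := fun p => ha p.1 p.2
  have hJ : ∀ z, ‖z‖ < 1 → HasProd (fun p : Σ k, ι k => gf (a p.1 p.2) z)
      (∏' p : Σ k, ι k, gf (a p.1 p.2) z) := fun z hz => (mult haJ hsig hz).hasProd
  have hP : ∀ z, ‖z‖ < 1 → HasProd (fun k => ∏' i, gf (a k i) z)
      (∏' p : Σ k, ι k, gf (a p.1 p.2) z) := fun z hz => (hJ z hz).sigma fun k => hm k z hz
  have hG0 : ‖∏' p : Σ k, ι k, gf (a p.1 p.2) z₀‖ = ‖F z₀‖ := by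
    refine HasProd.unique (hP z₀ hz₀).norm ?_
    have h1 := (hF z₀ hz₀).norm
    have e : (fun k => ‖β k z₀‖) = fun k => ‖∏' i, gf (a k i) z₀‖ :=
      funext fun k => hnb k z₀ hz₀
    rwa [e] at h1
  have hG1 : ∏' p : Σ k, ι k, gf (a p.1 p.2) z₀ ≠ 0 := by
    rw [← norm_pos_iff, hG0]
    exact hd
  set W : ℂ := F z₀ / ∏' p : Σ k, ι k, gf (a p.1 p.2) z₀ with hW
  have hWp : HasProd ω W := by
    have h1 : Tendsto (fun s : Finset κ => ∏ k ∈ s, β k z₀) atTop (𝓝 (F z₀)) := hF z₀ hz₀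
    have h2 : Tendsto (fun s : Finset κ => ∏ k ∈ s, ∏' i, gf (a k i) z₀) atTop
      (𝓝 (∏' p : Σ k, ι k, gf (a p.1 p.2) z₀)) := hP z₀ hz₀
    have h3 := h1.div h2 hG1
    change Tendsto (fun s : Finset κ => ∏ k ∈ s, ω k) atTop (𝓝 W)
    refine h3.congr fun s => ?_
    rw [Pi.div_apply, ← Finset.prod_div_distrib]
    apply Finset.prod_congr rfl
    intro k _
    have h4 : ∏' i, gf (a k i) z₀ ≠ 0 := by
      rw [← norm_pos_iff, ← hnb k z₀ hz₀]
      exact hbp k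
    rw [hb k z₀ hz₀, mul_div_cancel_right₀ _ h4]
  have hWn : ‖W‖ = 1 := by
    have h1 := hWp.norm
    simp only [hω] at h1
    exact h1.unique hasProd_one
  refine ⟨W, Σ k, ι k, inferInstance, fun p => a p.1 p.2, hWn, haJ, hsig, ?_⟩
  intro z hz
  have h1 := hWp.mul (hP z hz)
  have e : (fun k => ω k * ∏' i, gf (a k i) z) = fun k => β k z :=
    funext fun k => (hb k z hz).symm
  rw [e] at h1
  exact (hF z hz).unique h1

/-- A Blaschke product maps the disc to the disc. -/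
theorem bl_lt {C : ℂ → ℂ} (h : IsBlaschke C) {z : ℂ} (hz : ‖z‖ < 1) : ‖C z‖ < 1 := by
  obtain ⟨ω, ι, hι, a, hω, ha, hs, hC⟩ := rp_of_bl h
  rcases isEmpty_or_nonempty ι with he | ⟨⟨i⟩⟩
  · exfalso
    apply h.2
    refine ⟨ω, fun z hz => ?_⟩
    rw [hC z hz, tprod_empty, mul_one]
  · rw [hC z hz, norm_mul, hω, one_mul]
    have h1 := le_prod (fun i => norm_nonneg _) (fun i => (gf_lt (ha i) hz).le)
      (mult ha hs hz).hasProd.norm {i}
    rw [Finset.prod_singleton] at h1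
    exact h1.trans_lt (gf_lt (ha i) hz)

/-- A Blaschke product has a zero. -/
theorem bl_zero {C : ℂ → ℂ} (h : IsBlaschke C) : ∃ z : ℂ, ‖z‖ < 1 ∧ C z = 0 := by
  obtain ⟨ω, ι, hι, a, hω, ha, hs, hC⟩ := rp_of_bl h
  rcases isEmpty_or_nonempty ι with he | ⟨⟨i⟩⟩
  · exfalso
    apply h.2
    refine ⟨ω, fun z hz => ?_⟩
    rw [hC z hz, tprod_empty, mul_one]
  · refine ⟨a i, ha i, ?_⟩
    rw [hC _ (ha i), tprod_of_exists_eq_zero ⟨i, (gf_zero_iff (ha i) (ha i)).2 rfl⟩, mul_zero]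

/-- The zeros of a Blaschke product are countable. -/
theorem bl_countable {C : ℂ → ℂ} (h : IsBlaschke C) :
    ∃ S : Set ℂ, S.Countable ∧ ∀ z : ℂ, ‖z‖ < 1 → C z = 0 → z ∈ S := by
  obtain ⟨ω, ι, hι, a, hω, ha, hs, hC⟩ := rp_of_bl h
  refine ⟨Set.range a, Set.countable_range a, fun z hz h0 => ?_⟩
  rw [hC z hz, mul_eq_zero] at h0
  rcases h0 with h0 | h0
  · rw [h0, norm_zero] at hω
    exact absurd hω zero_ne_one
  · obtain ⟨i, hi⟩ := prod_zero ha hs hz h0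
    exact ⟨i, hi.symm⟩

/-- The factors composed with an indestructible Blaschke product. -/
theorem gf_bl {C : ℂ → ℂ} (h : Indestructible C) {b : ℂ} (hb : ‖b‖ < 1) :
    IsBlaschke fun z => gf b (C z) := by
  by_cases h0 : b = 0
  · have e : (fun z => gf b (C z)) = C := by
      funext z
      unfold gf
      rw [if_pos h0]
    rw [e]
    exact h.1
  · set r : ℂ := -(((‖b‖ : ℝ) : ℂ) / b) with hr
    have hr1 : ‖r‖ = 1 := by
      rw [hr, norm_neg, norm_div, Complex.norm_real, norm_norm, div_self (norm_ne_zero_iff.2 h0)]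
    have hr2 : Complex.exp (r.arg * Complex.I) = r := by
      have h4 := Complex.norm_mul_exp_arg_mul_I r
      rwa [hr1, Complex.ofReal_one, one_mul] at h4
    have h1 := h.2 r.arg b hb
    rw [hr2] at h1
    have e : (fun z => gf b (C z)) = fun z => r * ((C z - b) / (1 - (starRingEnd ℂ) b * C z)) := by
      funext z
      unfold gf fac
      rw [if_neg h0, hr]
      ring
    rw [e]
    exact h1

/-- The main step. -/
theorem step {B₁ C : ℂ → ℂ} (hB : IsBlaschke B₁) (hC : Indestructible C) :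
    IsBlaschke fun z => B₁ (C z) := by
  obtain ⟨ω, ι, hι, b, hω, hb, hs, hB1⟩ := rp_of_bl hB
  have hC1 : ∀ z : ℂ, ‖z‖ < 1 → ‖C z‖ < 1 := fun z hz => bl_lt hC.1 hz
  have hβ : ∀ i, IsBlaschke fun z => gf (b i) (C z) := fun i => gf_bl hC (hb i)
  set H : ℂ → ℂ := fun z => ∏' i, gf (b i) (C z) with hH
  have hHp : ∀ z, ‖z‖ < 1 → HasProd (fun i => gf (b i) (C z)) (H z) := fun z hz =>
    (mult hb hs (hC1 z hz)).hasProd
  -- a point where the product is not zero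
  obtain ⟨z₀, hz₀, hne⟩ : ∃ z₀ : ℂ, ‖z₀‖ < 1 ∧ H z₀ ≠ 0 := by
    choose S hS hS2 using fun i => bl_countable (hβ i)
    have hcount : (⋃ i, S i).Countable := Set.countable_iUnion hS
    have hdense := hcount.dense_compl ℝ
    obtain ⟨z₀, h1, h2⟩ := hdense.exists_mem_open (Metric.isOpen_ball (x := (0 : ℂ)) (ε := 1))
      ⟨0, by simp⟩
    have hz₀ : ‖z₀‖ < 1 := by simpa using h2
    refine ⟨z₀, hz₀, fun h3 => h1 ?_⟩
    obtain ⟨i, hi⟩ := prod_zero hb hs (hC1 z₀ hz₀) h3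
    exact Set.mem_iUnion.2 ⟨i, hS2 i z₀ hz₀ ((gf_zero_iff (hb i) (hC1 z₀ hz₀)).2 hi)⟩
  have hRH : Rp H := rp_prod (fun i z => gf (b i) (C z)) (fun i => rp_of_bl (hβ i)) H hHp z₀ hz₀ hne
  have hω0 : ω ≠ 0 := by
    rw [← norm_pos_iff, hω]
    exact one_pos
  have hF : ∀ z : ℂ, ‖z‖ < 1 → B₁ (C z) = ω * H z := fun z hz => hB1 _ (hC1 z hz)
  refine bl_of_rp ?_ ?_
  · obtain ⟨ω', J, hJ, a, hω', ha, hs', hH'⟩ := hRH
    refine ⟨ω * ω', J, hJ, a, by rw [norm_mul, hω, hω', one_mul], ha, hs', fun z hz => ?_⟩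
    change B₁ (C z) = _
    rw [hF z hz, hH' z hz, mul_assoc]
  · rintro ⟨c, hc⟩
    rcases isEmpty_or_nonempty ι with he | ⟨⟨i⟩⟩
    · apply hB.2
      refine ⟨ω, fun z hz => ?_⟩
      rw [hB1 z hz, tprod_empty, mul_one]
    · obtain ⟨z₁, hz₁, h1⟩ := bl_zero (hβ i)
      have h2 : H z₁ = 0 := tprod_of_exists_eq_zero ⟨i, h1⟩
      have h3 := hc z₁ hz₁
      rw [hF z₁ hz₁, h2, mul_zero] at h3
      have h4 := hc z₀ hz₀
      rw [hF z₀ hz₀, ← h3, mul_eq_zero] at h4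
      rcases h4 with h4 | h4
      · exact hω0 h4
      · exact hne h4

/-- The composition of two indestructible Blaschke products is an indestructible Blaschke
product. -/
theorem result (B C : ℂ → ℂ) (hB : Indestructible B) (hC : Indestructible C) :
    Indestructible fun z => B (C z) :=
  ⟨step hB.1 hC, fun φ a ha => step (B₁ := fun w => Complex.exp (φ * Complex.I) *
    ((B w - a) / (1 - (starRingEnd ℂ) a * B w))) (hB.2 φ a ha) hC⟩

end Pool.Agent.Results.MP_4d1c53_an.CompositionIndestructible
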